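import Pool.Agent.TH707.DP.Final

/-!
# How many strings of a random oracle have to be changed to balance all circuits?

Relative to an oracle the circuits may have gates for the oracle; a gate with `j` inputs has size
`j + 1` and contributes `⌊log₂ j⌋ + 1` to the depth. An adversary who knows the random oracle `O`
changes, for all large `n`, at most `g n` of the strings of length at most `n`; the result is the
oracle `A` (`Close g O A`).

* If for every `ε > 0` there are infinitely many `n` with `g n ≤ 2 ^ (n ^ ε)`, then for almost every
  `O`, relative to all these `A`, question Q1 has a negative answer; even much more: for no `c` and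
  no `δ < 1` all circuits of size `S ≥ 2` have equivalent circuits of depth at most `c S ^ δ` and
  size at most `S ^ c`.
* Otherwise every oracle `O` can be changed such that, relative to `A`, question Q1 has a positive
  answer: all circuits of size `S ≥ 2` have equivalent circuits of depth at most `c log S` and of
  size at most `S ^ c`.
-/

set_option autoImplicit false

namespace Pool.Agent.Results.MP_7713c5_lc.ChangedStrings

open Pool.Agent.NPC Pool.Agent.H620R2.Gauge Pool.Agent.TH707.DP
open Pool.Agent.W900.CH (Close)
open Pool.Agent.H628R3.RO (randomOracle)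
open MeasureTheory Filter

theorem result (g : ℕ → ℝ) :
    ((∀ ε : ℝ, 0 < ε → ∃ᶠ n : ℕ in atTop, g n ≤ 2 ^ ((n : ℝ) ^ ε)) →
      ∀ᵐ O ∂randomOracle, ∀ A : Oracle, Close g O A → ¬ SublinearDepth A) ∧
    ((¬ ∀ ε : ℝ, 0 < ε → ∃ᶠ n : ℕ in atTop, g n ≤ 2 ^ ((n : ℝ) ^ ε)) →
      ∀ O : Oracle, ∃ A : Oracle, Close g O A ∧ LogDepth A) :=
  changed g

end Pool.Agent.Results.MP_7713c5_lc.ChangedStrings
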