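import Pool.Agent.TH707.DP.Final

/-!
# The size of the set of the oracles relative to which all circuits can be balanced

Relative to an oracle the circuits may have gates for the oracle; a gate with `j` inputs has size
`j + 1` and contributes `⌊log₂ j⌋ + 1` to the depth. The set of the oracles relative to which
question Q1 has a positive answer is a null set for the gauge `f` if and only if for every `ε > 0`
there are infinitely many `N` with `f N ≤ 2 ^ ((log N) ^ ε)`. The same holds for the set of the
oracles relative to which, for some `δ < 1`, all circuits of size `S` have equivalent circuits of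
depth `O(S ^ δ)` and of size polynomial in `S`, and for all sets in between.
-/

set_option autoImplicit false

namespace Pool.Agent.Results.MP_7713c5_lc.GaugeThreshold

open Pool.Agent.NPC Pool.Agent.H620R2.Gauge Pool.Agent.TH707.DP
open Filter

theorem result (f : ℕ → ℝ) :
    (Null f {A : Oracle | LogDepth A} ↔
      ∀ ε : ℝ, 0 < ε → ∃ᶠ N : ℕ in atTop, f N ≤ 2 ^ ((Real.logb 2 N) ^ ε)) ∧
    (Null f {A : Oracle | SublinearDepth A} ↔
      ∀ ε : ℝ, 0 < ε → ∃ᶠ N : ℕ in atTop, f N ≤ 2 ^ ((Real.logb 2 N) ^ ε)) ∧
    ∀ S : Set Oracle, (∀ A : Oracle, LogDepth A → A ∈ S) → (∀ A ∈ S, SublinearDepth A) →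
      (Null f S ↔
        ∀ ε : ℝ, 0 < ε → ∃ᶠ N : ℕ in atTop, f N ≤ 2 ^ ((Real.logb 2 N) ^ ε)) :=
  ⟨gauge f _ (fun _ h => h) fun _ h => log_sub h,
    gauge f _ (fun _ h => log_sub h) fun _ h => h, fun S h1 h2 => gauge f S h1 h2⟩

end Pool.Agent.Results.MP_7713c5_lc.GaugeThreshold
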