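import Mathlib
import Pool.Agent.TH709.NC.Main

/-!
# Circuits of logarithmic depth: what must be predicted about the values of large circuits

`Circuit`, its `size`, `depth` and `eval` are those of `Pool/Agent/H540R2/Circ.lean` (gates AND, OR
of fan-in 2 and NOT; depth is the number of gates on a longest path); `Q1` and `PolylogDepth` are in
`Pool/Agent/W953/NW/Eqv.lean`: `PolylogDepth i` says that every circuit of size `S ≥ 2` has an
equivalent circuit of depth at most `c * log ^ i S` and size at most `2 ^ (c * log ^ i S)`, and `Q1`
is the question. For a list `x` of `m` inputs of `n` bits, `join x` (file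
`Pool/Agent/TH709/NC/Core.lean`) is the list written as one string of `m * n` bits.

1. *One function.* Let `f` be a Boolean function of `n` variables and let the circuit `T` read lists
   `x 0, …, x (m - 1)` of inputs of `f` and vectors of `m` bits. If for every list `T` accepts the
   vector of the values `f (x j)` and rejects at least the fraction `1 / D` of all vectors, then `f`
   has circuits of depth at most `depth T + 12 * log (8 * (n + 1) * m ^ 2 * D ^ 2) + 19`.
2. For `i ≥ 1` the following are equivalent: `PolylogDepth i`; `Excludes i` (for the values of every
   circuit of size `S` such a test exists, with `depth T = O(log ^ i S)` and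
   `m, D ≤ 2 ^ O(log ^ i S)`); `Covered i` (circuits of depth `O(log ^ i S)` with a hint of
   `k = O(log ^ i S)` bits, which may depend on the list in any way, predict at least `r` of the `m`
   values right, for some `m`, `k`, `r` for which the `2 ^ k` balls of the vectors with at least `r`
   agreements with their centre cannot cover more than the fraction `1 - 2 ^ (- O(log ^ i S))` of
   the cube). The case `i = 1` is the question.
3. On the other hand, if `K * vol m r ≥ m * 2 ^ m`, then `K` constant vectors suffice: a hint of
   about `log m` more bits makes the same number of right predictions trivial.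
4. There is a constant `C` such that for a constant number `k` of bits of help, and predictors
   which may abstain: if `t ^ 2 ≥ C * 2 ^ k` or `t ^ 2 ≥ (k + 1) * 2 ^ (k + 1)`, then `PolylogDepth i`
   holds iff there are predictors of depth `O(log ^ i S)` for which the numbers of right and of wrong
   predictions differ by at least `t` for every list (`Predictable i k t`); while if
   `(t - 1) ^ 2 < 2 ^ k`, constant predictors achieve this for all functions. So without help the
   difference `1` is trivial and the difference `2` is equivalent to the question; with one bit of
   help the difference `2` is trivial and the difference `3` is equivalent to the question.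

Proof of 1. In the list of the vectors which agree with the true values below `t` and with random
bits from `t` on, the acceptance probability grows from at most `1 - 1 / D` to `1`; so for a random
position and a random assignment of the other entries, fixing all but one input gives a predictor
with advantage `1 / (m * D)`, for every weighting of the inputs; boosting gives a majority vote,
which has small depth by Valiant's circuits. For 4: by the theorem of Borsuk and Ulam (Hobby and
Rice) and Spencer's theorem on linear discrepancy, every vector becomes balanced with respect to all
`2 ^ k` vectors of predictions after multiplication with one of `(4 * m) ^ (2 ^ k + 1)` vectors, so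
that fraction of all vectors is excluded.
-/

set_option autoImplicit false

namespace Pool.Agent.Results.MP_7713c5_lc.PredictionLaw

open Pool.Agent.H540R2 Pool.Agent.W953.NW Pool.Agent.TH709.NC

/-- **The laws of prediction for circuits of small depth.** -/
theorem result :
    (∀ (n m D : ℕ) (f : (Fin n → Bool) → Bool) (T : Circuit (m * n + m)),
      (∀ x : Fin m → Fin n → Bool, T.eval (Fin.append (join x) fun j => f (x j)) = true ∧
        2 ^ m ≤ D * (Finset.univ.filter fun u : Fin m → Bool =>
          T.eval (Fin.append (join x) u) = false).card) →
      ∃ C : Circuit n, (∀ x, C.eval x = f x) ∧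
        C.depth ≤ T.depth + 12 * Nat.log 2 (8 * (n + 1) * m ^ 2 * D ^ 2) + 19) ∧
    (Q1 ↔ PolylogDepth 1) ∧
    (∀ i : ℕ, 1 ≤ i → (PolylogDepth i ↔ Excludes i) ∧ (PolylogDepth i ↔ Covered i)) ∧
    (∀ m K r : ℕ, 1 ≤ m → m * 2 ^ m ≤ K * vol m r → ∃ p : Fin K → Fin m → Bool,
      ∀ v : Fin m → Bool, ∃ h, r ≤ (Finset.univ.filter fun j => p h j = v j).card) ∧
    ∃ C : ℕ, 0 < C ∧ ∀ k t : ℕ,
      ((C * 2 ^ k ≤ t ^ 2 ∨ (k + 1) * 2 ^ (k + 1) ≤ t ^ 2) →
        ∀ i : ℕ, 1 ≤ i → (PolylogDepth i ↔ Predictable i k t)) ∧
      ((t - 1) ^ 2 < 2 ^ k → ∀ m : ℕ, 2 ^ k ≤ m → ∃ p : Fin (2 ^ k) → Fin m → Option Bool,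
        ∀ v : Fin m → Bool, ∃ h, (t : ℤ) ≤ |excess (p h) v|) :=
  ⟨fun _ _ _ f T h => depth_of_test f T h, q1_iff,
    fun _ hi => ⟨polylog_iff_excludes hi, polylog_iff_covered hi⟩,
    fun _ _ _ hm h => free_cover hm h, help_law⟩

end Pool.Agent.Results.MP_7713c5_lc.PredictionLaw
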