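import Pool.Agent.TH708.Dsh.Asym
import Pool.Agent.TH822.J988

/-!
# A circuit of small depth shares many inputs

The typed bracket language consists of the words over two kinds of brackets and a neutral letter in
which the brackets are balanced and matched brackets have the same kind; a word of length `n` is
coded by `3 n` bits, and the bit `(i, 2)` is the type of the bracket at position `i`. It has
circuits of polynomial size and depth `O((log n)²)` in which no AND gate shares any input bit: the
two inputs of an AND gate depend on disjoint sets of input bits (formal degree one in each bit).

The theorem says that EVERY circuit for this language whose depth is smaller than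
`c (log n)²`, in particular every circuit of logarithmic depth, has an AND gate such that more than
`n ^ (1/2 - ε)` type bits occur below both of its inputs. This holds, moreover, for each set `W` of
positions (with `|W|` instead of `n`), and it is enough that the circuit is right on the words which
are balanced if the types are forgotten. So the simulation by circuits of logarithmic depth, if
possible, must introduce AND gates that share almost `√n` inputs even if the given circuit has no
sharing at all; and for circuits with less sharing the depth `Θ((log n)²)` is optimal.

Proof. Unfold the circuit into a formula `F` with at most `2 ^ depth` leaves. Let `m` be the largest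
sum, over a path, of the numbers of shared bits at the AND gates. A subformula `u` which reads
between one and two thirds of the bits splits it as `F = F₀ ∨ (u ∧ S)`, where `S` reads bits of `u`
only if they are shared on the way to `u`. So, up to a factor `2 ^ m` in total, the numbers of
rectangles multiply as for disjoint sets of bits. For a random half `Y` of `W` one of the sets of
bits in each branch is unbalanced by `2 ^ a` (which is smaller than the square root of its
cardinality), except for a fraction `q ^ (-levels)` of all halves. This gives
`2 ^ (depth + m + |W|/2 - 2 ^ a)` rectangles for the equality of the bits of `Y` with those of the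
complement in a noncrossing matching, which needs `2 ^ (|W|/2)`.
-/

set_option autoImplicit false

namespace Pool.Agent.Results.MP_7713c5_lc.SharingDepth

open Pool.Agent.TH708.Dec Pool.Agent.TH708.Dsh

/-- (1) The typed bracket language has circuits of polynomial size, depth `O((log n)²)` and formal
degree at most one in each input bit. (2) Let `0 < ε ≤ 1/2`. If `D` is a circuit that is right on
all words of balanced shape and `W` is a large enough set of positions, then the depth of `D` is at
least `(ε² / 8) ⌊log₂ |W|⌋²`, or `D` has an AND gate such that more than `|W| ^ (1/2 - ε)` type bits
of positions in `W` are read below both of its inputs. -/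
theorem result :
    (∃ K : ℕ, ∀ n : ℕ, ∃ C : Ckt (Fin n × Fin 3),
      C.size ≤ (n + 2) ^ K ∧ C.depth ≤ K * (Nat.log 2 (n + 2)) ^ 2 ∧ (∀ v, C.deg v ≤ 1) ∧
        ∀ z, (C.eval z = true ↔ Dyck z)) ∧
    ∀ ε : ℝ, 0 < ε → ε ≤ 1 / 2 → ∃ N₀ : ℕ, ∀ (n : ℕ) (D : Ckt (Fin n × Fin 3)),
      (∀ z, Dyck (untyped z) → (D.eval z = true ↔ Dyck z)) →
      ∀ W : Finset (Fin n), N₀ ≤ W.card →
        ε ^ 2 / 8 * (Nat.log 2 W.card : ℝ) ^ 2 ≤ D.depth ∨
        ∃ g a b, D.kind g = Kind.and a b ∧
          (W.card : ℝ) ^ (1 / 2 - ε) < (common D W a b).card :=
  ⟨Pool.Agent.TH822.J988.dyck_shallow, depth_or_share⟩

end Pool.Agent.Results.MP_7713c5_lc.SharingDepth
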